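import Pool.Agent.helper70.LE.SpecN

set_option autoImplicit false

namespace Pool.Agent.LE

open Pool.Agent.helper58.DC Pool.Agent.DI Pool.Agent.GR Pool.Agent.OB Pool.Agent.DR Pool.Agent.FI Pool.Agent.FI3 Pool.Agent.FI4

/-- the partial norms -/
def COP_m {G : Type} [Group G] (k q : G) : ℕ → G
  | 0 => 1
  | j + 1 => COP_m k q j * (k ^ j * q * (k ^ j)⁻¹)

theorem COP : COP_stmt := by
  intro p hp G _ _ D Q Q' hD hcom hQQ hQD k hkD hkQ N hN hkN hact q hq
  have hqD : q ∈ D := hQD hq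
  have hcD : ∀ d ∈ D, k * d * k⁻¹ ∈ D := fun d hd => (Subgroup.mem_normalizer_iff.1 hkD d).1 hd
  have hcQ : ∀ d ∈ Q, k * d * k⁻¹ ∈ Q := fun d hd => (Subgroup.mem_normalizer_iff.1 hkQ d).1 hd
  have hstep : ∀ j : ℕ, k ^ (j + 1) * q * (k ^ (j + 1))⁻¹ = k * (k ^ j * q * (k ^ j)⁻¹) * k⁻¹ := by
    intro j
    rw [pow_succ', mul_inv_rev]
    simp only [mul_assoc]
  have haD : ∀ j : ℕ, k ^ j * q * (k ^ j)⁻¹ ∈ D := by
    intro j
    induction j with
    | zero => simpa using hqD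
    | succ j ih => rw [hstep]; exact hcD _ ih
  have haQ : ∀ j : ℕ, k ^ j * q * (k ^ j)⁻¹ * q⁻¹ ∈ Q := by
    intro j
    induction j with
    | zero => simp [Q.one_mem]
    | succ j ih =>
      have h1 := Q.mul_mem (hcQ _ ih) (hact q hq)
      have e : k * (k ^ j * q * (k ^ j)⁻¹ * q⁻¹) * k⁻¹ * (k * q * k⁻¹ * q⁻¹) =
          k ^ (j + 1) * q * (k ^ (j + 1))⁻¹ * q⁻¹ := by
        rw [hstep]
        group
      rwa [e] at h1
  have hmD : ∀ j : ℕ, COP_m k q j ∈ D := by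
    intro j
    induction j with
    | zero => exact D.one_mem
    | succ j ih => exact D.mul_mem ih (haD j)
  have hkm : ∀ j : ℕ, k * COP_m k q j * k⁻¹ * q = COP_m k q j * (k ^ j * q * (k ^ j)⁻¹) := by
    intro j
    induction j with
    | zero => simp [COP_m]
    | succ j ih =>
      have h1 : k * COP_m k q (j + 1) * k⁻¹ * q =
          k * COP_m k q j * k⁻¹ * (k ^ (j + 1) * q * (k ^ (j + 1))⁻¹ * q) := by
        rw [hstep]
        show k * (COP_m k q j * (k ^ j * q * (k ^ j)⁻¹)) * k⁻¹ * q = _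
        group
      have h2 : k * COP_m k q j * k⁻¹ * (q * (k ^ (j + 1) * q * (k ^ (j + 1))⁻¹)) =
          COP_m k q (j + 1) * (k ^ (j + 1) * q * (k ^ (j + 1))⁻¹) := by
        rw [← mul_assoc, ih]
        rfl
      rw [h1, hcom _ (haD (j + 1)) _ hqD, h2]
  have hmQ : ∀ j : ℕ, COP_m k q j * (q ^ j)⁻¹ ∈ Q := by
    intro j
    induction j with
    | zero => simp [COP_m, Q.one_mem]
    | succ j ih =>
      have h1 := Q.mul_mem ih (haQ j)
      have h2 := hcom _ (D.inv_mem (D.pow_mem hqD j)) _ (haD j)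
      have e : COP_m k q j * (q ^ j)⁻¹ * (k ^ j * q * (k ^ j)⁻¹ * q⁻¹) = COP_m k q (j + 1) * (q ^ (j + 1))⁻¹ := by
        calc COP_m k q j * (q ^ j)⁻¹ * (k ^ j * q * (k ^ j)⁻¹ * q⁻¹)
            = COP_m k q j * ((q ^ j)⁻¹ * (k ^ j * q * (k ^ j)⁻¹)) * q⁻¹ := by simp only [mul_assoc]
          _ = COP_m k q j * ((k ^ j * q * (k ^ j)⁻¹) * (q ^ j)⁻¹) * q⁻¹ := by rw [h2]
          _ = COP_m k q j * (k ^ j * q * (k ^ j)⁻¹) * ((q ^ j)⁻¹ * q⁻¹) := by simp only [mul_assoc]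
          _ = COP_m k q (j + 1) * (q ^ (j + 1))⁻¹ := by rw [← mul_inv_rev, ← pow_succ']; rfl
      rwa [e] at h1
  have hkNq : k ^ N * q * (k ^ N)⁻¹ = q := by
    have h1 := Subgroup.mem_centralizer_iff.1 hkN q hqD
    rw [← h1, mul_assoc, mul_inv_cancel, mul_one]
  have hfix : k * COP_m k q N * k⁻¹ = COP_m k q N := by
    have h1 := hkm N
    rw [hkNq] at h1
    exact mul_right_cancel h1
  have hmC : COP_m k q N ∈ Cz D k := by
    refine ⟨hmD N, ?_⟩
    change COP_m k q N ∈ Subgroup.centralizer {k}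
    rw [Subgroup.mem_centralizer_iff]
    intro g hg
    rw [Set.mem_singleton_iff.1 hg]
    exact mul_inv_eq_iff_eq_mul.1 hfix
  have hqN : q ^ N ∈ Q ⊔ Cz D k := by
    have h1 : (COP_m k q N * (q ^ N)⁻¹)⁻¹ * COP_m k q N = q ^ N := by group
    rw [← h1]
    exact Subgroup.mul_mem _ (Subgroup.inv_mem _ (Subgroup.mem_sup_left (hmQ N))) (Subgroup.mem_sup_right hmC)
  obtain ⟨e, he⟩ := hD ⟨q, hqD⟩
  have he' : q ^ (p ^ e) = 1 := by
    have := congrArg Subtype.val he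
    simpa using this
  have hco : Nat.Coprime N (orderOf q) := by
    have h1 : Nat.Coprime N (p ^ e) := Nat.Coprime.pow_right e ((Nat.Prime.coprime_iff_not_dvd hp).2 hN).symm
    exact Nat.Coprime.coprime_dvd_right (orderOf_dvd_of_pow_eq_one he') h1
  obtain ⟨m, hm⟩ := exists_pow_eq_self_of_coprime hco
  rw [← hm]
  exact Subgroup.pow_mem _ hqN m

end Pool.Agent.LE
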