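import Pool.Agent.helper12.LE.SpecB

set_option autoImplicit false

namespace Pool.Agent.LE

open Pool.Agent.helper58.DC Pool.Agent.DI Pool.Agent.GR Pool.Agent.OB Pool.Agent.DR Pool.Agent.FI Pool.Agent.FI3 Pool.Agent.FI4 Pool.Agent.FI4C Pool.Agent.FI4B

/-- sum over the classes -/
theorem KCS_cls {ι : Type} [DecidableEq ι] (S : Finset ι) (q : ι → Finset ι) (h1 : ∀ l ∈ S, l ∈ q l)
    (h2 : ∀ l ∈ S, q l ⊆ S) (h3 : ∀ l ∈ S, ∀ l' ∈ q l, q l' = q l) (g : ι → ℂ) (c : ℂ)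
    (h4 : ∀ l ∈ S, ∃ z, IsIntegral ℤ z ∧ ∑ l' ∈ q l, g l' = c * z) :
    ∃ z, IsIntegral ℤ z ∧ ∑ l ∈ S, g l = c * z := by
  have hfib : ∀ y ∈ S.image q, ∃ z, IsIntegral ℤ z ∧ ∑ l ∈ S with q l = y, g l = c * z := by
    intro y hy
    obtain ⟨l₀, hl₀, rfl⟩ := Finset.mem_image.1 hy
    have e : S.filter (fun l => q l = q l₀) = q l₀ := by
      ext l'
      rw [Finset.mem_filter]
      constructor
      · rintro ⟨h5, h6⟩
        rw [← h6]
        exact h1 l' h5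
      · intro h5
        exact ⟨h2 l₀ hl₀ h5, h3 l₀ hl₀ l' h5⟩
    rw [e]
    exact h4 l₀ hl₀
  choose! z hz1 hz2 using hfib
  refine ⟨∑ y ∈ S.image q, z y, IsIntegral.sum _ hz1, ?_⟩
  rw [← Finset.sum_fiberwise_of_maps_to (fun x hx => Finset.mem_image_of_mem q hx) g, Finset.mul_sum]
  exact Finset.sum_congr rfl hz2

section

variable {X : Type} [CommGroup X] [Finite X]

/-- the class of `l` -/
noncomputable def KCS_mu (p j : ℕ) (l : X) : X := l ^ (orderOf l / p ^ j)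

open Classical in
/-- the class of `l` -/
noncomputable def KCS_q (p j : ℕ) (l : X) : Finset X :=
  (Finset.range (p ^ j)).image fun t => l * KCS_mu p j l ^ t

end

section

variable {X : Type} [CommGroup X] [Finite X] (p : ℕ) (hp : p.Prime) (j : ℕ)
  (l : X) (hX : ∃ i, orderOf l = p ^ i) (hl : l ^ p ^ j ≠ 1)

include hp hX hl

omit [Finite X] in
theorem KCS_ord : ∃ i : ℕ, j < i ∧ orderOf l = p ^ i := by
  obtain ⟨i, hi⟩ := hX
  refine ⟨i, ?_, hi⟩
  by_contra hij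
  apply hl
  refine orderOf_dvd_iff_pow_eq_one.1 ?_
  rw [hi]
  exact pow_dvd_pow p (by omega)

theorem KCS_mo : orderOf (KCS_mu p j l) = p ^ j ∧ p ∣ orderOf l / p ^ j ∧ p ^ j ∣ orderOf l := by
  obtain ⟨i, hji, hi⟩ := KCS_ord p hp j l hX hl
  have hp0 : 0 < p := hp.pos
  have h1 : orderOf l / p ^ j = p ^ (i - j) := by
    rw [hi, Nat.pow_div hji.le hp0]
  refine ⟨?_, ?_, ?_⟩
  · rw [KCS_mu, h1, orderOf_pow_of_dvd (pow_ne_zero _ hp0.ne') (by rw [hi]; exact pow_dvd_pow p (by omega)), hi,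
      Nat.pow_div (by omega) hp0]
    congr 1
    omega
  · rw [h1]
    exact dvd_pow_self p (by omega)
  · rw [hi]
    exact pow_dvd_pow p hji.le

theorem KCS_mem (l'' : X) : l'' ∈ KCS_q p j l ↔ l⁻¹ * l'' ∈ Subgroup.zpowers (KCS_mu p j l) := by
  classical
  have h1 := (KCS_mo p hp j l hX hl).1
  rw [KCS_q, Finset.mem_image]
  constructor
  · rintro ⟨t, -, rfl⟩
    rw [inv_mul_cancel_left]
    exact Subgroup.npow_mem_zpowers _ t
  · intro h2
    rw [mem_zpowers_iff_mem_range_orderOf, Finset.mem_image, h1] at h2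
    obtain ⟨t, ht, he⟩ := h2
    exact ⟨t, ht, by rw [he, mul_inv_cancel_left]⟩

theorem KCS_pow (l' : X) (h : l' ∈ KCS_q p j l) : ∃ s : ℕ, s ≡ 1 [MOD p] ∧ l' = l ^ s ∧
    Nat.Coprime s (orderOf l) ∧ Nat.Coprime s p := by
  classical
  obtain ⟨i, hji, hi⟩ := KCS_ord p hp j l hX hl
  obtain ⟨-, h2, -⟩ := KCS_mo p hp j l hX hl
  rw [KCS_q, Finset.mem_image] at h
  obtain ⟨t, -, rfl⟩ := h
  have hs : 1 + orderOf l / p ^ j * t ≡ 1 [MOD p] := by
    obtain ⟨c, hc⟩ := h2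
    rw [hc]
    have : 1 + p * c * t = 1 + p * (c * t) := by ring
    rw [this]
    simp [Nat.ModEq]
  have hco : Nat.Coprime (1 + orderOf l / p ^ j * t) p := by
    rw [Nat.coprime_comm, Nat.Prime.coprime_iff_not_dvd hp]
    intro hd
    have h3 := (Nat.modEq_zero_iff_dvd.2 hd).symm.trans hs
    have h4 := (Nat.modEq_iff_dvd' (Nat.zero_le 1)).1 h3
    exact hp.one_lt.ne' (Nat.dvd_one.1 (by simpa using h4))
  refine ⟨1 + orderOf l / p ^ j * t, hs, ?_, ?_, hco⟩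
  · rw [pow_add, pow_one, pow_mul]
    rfl
  · have h5 := Nat.Coprime.pow_right i hco
    rwa [← hi] at h5

theorem KCS_ne (l' : X) (h : l' ∈ KCS_q p j l) : orderOf l' = orderOf l ∧
    Subgroup.zpowers (KCS_mu p j l') = Subgroup.zpowers (KCS_mu p j l) := by
  obtain ⟨s, hs1, hs2, hs3, -⟩ := KCS_pow p hp j l hX hl l' h
  obtain ⟨h1, -, h3⟩ := KCS_mo p hp j l hX hl
  have ho : orderOf l' = orderOf l := by
    rw [hs2]
    exact Nat.Coprime.orderOf_pow hs3.symm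
  refine ⟨ho, ?_⟩
  have e : KCS_mu p j l' = KCS_mu p j l ^ s := by
    rw [KCS_mu, ho, hs2, KCS_mu, ← pow_mul, ← pow_mul, mul_comm]
  have hco : Nat.Coprime s (orderOf (KCS_mu p j l)) := by
    rw [h1]
    exact Nat.Coprime.coprime_dvd_right h3 hs3
  obtain ⟨m, hm⟩ := exists_pow_eq_self_of_coprime hco
  refine le_antisymm ?_ ?_
  · rw [Subgroup.zpowers_le, e]
    exact Subgroup.npow_mem_zpowers _ s
  · rw [Subgroup.zpowers_le, e]
    exact ⟨(m : ℤ), by simpa using hm⟩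

theorem KCS_sum (v : X →* ℂ) (hv : ∀ x, IsIntegral ℤ (v x)) :
    ∃ z : ℂ, IsIntegral ℤ z ∧ ∑ l' ∈ KCS_q p j l, v l' = (p : ℂ) ^ j * z := by
  classical
  obtain ⟨h1, -, -⟩ := KCS_mo p hp j l hX hl
  have hinj : Set.InjOn (fun t : ℕ => l * KCS_mu p j l ^ t) (Finset.range (p ^ j) : Set ℕ) := by
    intro a ha b hb hab
    have h2 : KCS_mu p j l ^ a = KCS_mu p j l ^ b := mul_left_cancel hab
    rw [← h1] at ha hb
    exact pow_injOn_Iio_orderOf (by simpa using ha) (by simpa using hb) h2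
  have h3 : ∑ l' ∈ KCS_q p j l, v l' = v l * ∑ t ∈ Finset.range (p ^ j), v (KCS_mu p j l) ^ t := by
    rw [KCS_q, Finset.sum_image hinj, Finset.mul_sum]
    exact Finset.sum_congr rfl fun t _ => by rw [map_mul, map_pow]
  by_cases h4 : v (KCS_mu p j l) = 1
  · refine ⟨v l, hv l, ?_⟩
    rw [h3, h4]
    simp [mul_comm]
  · refine ⟨0, isIntegral_zero, ?_⟩
    have h5 : v (KCS_mu p j l) ^ p ^ j = 1 := by
      rw [← map_pow, ← h1, pow_orderOf_eq_one, map_one]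
    rw [h3, geom_sum_eq h4, h5]
    simp

end

theorem KCS_abs {X : Type} [CommGroup X] [Finite X] (p : ℕ) (hp : p.Prime) (j : ℕ)
    (hX : ∀ l : X, ∃ i, orderOf l = p ^ i) (S : Finset X) (hS : ∀ l ∈ S, l ^ p ^ j ≠ 1)
    (hS2 : ∀ l ∈ S, ∀ s : ℕ, Nat.Coprime s (orderOf l) → l ^ s ∈ S) (m : X → ℤ)
    (hm : ∀ (l : X) (s : ℕ), s ≡ 1 [MOD p] → m (l ^ s) = m l) (v : X →* ℂ) (hv : ∀ x, IsIntegral ℤ (v x)) :
    ∃ z : ℂ, IsIntegral ℤ z ∧ ∑ l ∈ S, (m l : ℂ) * v l = (p : ℂ) ^ j * z := by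
  classical
  refine KCS_cls S (KCS_q p j) (fun l hl => ?_) (fun l hl l' hl' => ?_) (fun l hl l' hl' => ?_) _ _ (fun l hl => ?_)
  · rw [KCS_mem p hp j l (hX l) (hS l hl), inv_mul_cancel]
    exact Subgroup.one_mem _
  · obtain ⟨s, -, hs2, hs3, -⟩ := KCS_pow p hp j l (hX l) (hS l hl) l' hl'
    rw [hs2]
    exact hS2 l hl s hs3
  · obtain ⟨h1, h3⟩ := KCS_ne p hp j l (hX l) (hS l hl) l' hl'
    have hl'' : l' ^ p ^ j ≠ 1 := by
      intro h
      have := orderOf_dvd_of_pow_eq_one h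
      rw [h1] at this
      exact hS l hl (orderOf_dvd_iff_pow_eq_one.1 this)
    have h4 := (KCS_mem p hp j l (hX l) (hS l hl) l').1 hl'
    ext l''
    rw [KCS_mem p hp j l' (hX l') hl'', KCS_mem p hp j l (hX l) (hS l hl), h3]
    have h5 : l⁻¹ * l'' = (l⁻¹ * l') * (l'⁻¹ * l'') := by group
    rw [h5]
    exact ((Subgroup.zpowers (KCS_mu p j l)).mul_mem_cancel_left h4).symm
  · obtain ⟨z, hz1, hz2⟩ := KCS_sum p hp j l (hX l) (hS l hl) v hv
    refine ⟨(m l : ℂ) * z, (isIntegral_algebraMap (R := ℤ) (x := m l)).mul hz1, ?_⟩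
    have h1 : ∑ l' ∈ KCS_q p j l, (m l' : ℂ) * v l' = ∑ l' ∈ KCS_q p j l, (m l : ℂ) * v l' := by
      refine Finset.sum_congr rfl fun l' hl' => ?_
      obtain ⟨s, hs1, hs2, -⟩ := KCS_pow p hp j l (hX l) (hS l hl) l' hl'
      rw [hs2, hm l s hs1]
    rw [h1, ← Finset.mul_sum, hz2]
    ring

theorem KCS_hpow {D : Type} [Group D] (l : D →* ℂˣ) (u : D) (s : ℕ) : lv (l ^ s) u = lv l u ^ s := by
  simp [lv]

/-- evaluation at `u` -/
noncomputable def KCS_v {D : Type} [CommGroup D] (u : D) : (D →* ℂˣ) →* ℂ :=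
  { toFun := fun l => lv l u, map_one' := lv_hone u, map_mul' := fun a b => lv_hmul a b u }

theorem KCS_v_apply {D : Type} [CommGroup D] (u : D) (l : D →* ℂˣ) : KCS_v u l = lv l u := rfl

theorem KCS (hLCG : LCG_stmt) (hLCO : LCO_stmt) : KCS_stmt := by
  intro p hp D _ _ hD j K hK f hf hinv u
  classical
  obtain ⟨m, hm⟩ := hf
  have hfin : Fintype (D →* ℂˣ) := Fintype.ofFinite _
  have hf' : ∀ u, f u = ∑ l : D →* ℂˣ, (m l : ℂ) * lv l u := fun u => by rw [hm u, finsum_eq_sum_of_fintype]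
  have hc0 : (Nat.card D : ℂ) ≠ 0 := Nat.cast_ne_zero.2 Nat.card_pos.ne'
  have hcoef : ∀ l' : D →* ℂˣ, ∑ u, f u * lv l' u⁻¹ = (Nat.card D : ℂ) * m l' := by
    intro l'
    have h1 : ∀ u, f u * lv l' u⁻¹ = ∑ l : D →* ℂˣ, (m l : ℂ) * (lv l u * lv l' u⁻¹) := fun u => by
      rw [hf' u, Finset.sum_mul]
      exact Finset.sum_congr rfl fun l _ => by ring
    rw [Finset.sum_congr rfl fun u _ => h1 u, Finset.sum_comm]
    rw [Finset.sum_eq_single l']
    · rw [← Finset.mul_sum, sum_lv_lv, if_pos rfl, mul_comm]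
    · intro l _ hl
      rw [← Finset.mul_sum, sum_lv_lv, if_neg hl, mul_zero]
    · intro h
      exact absurd (Finset.mem_univ _) h
  have hmc : ∀ (s : ℕ) (l : D →* ℂˣ), s ≡ 1 [MOD p] → m (l ^ s) = m l := by
    intro s l hs
    have := Fact.mk hp
    obtain ⟨N, hN⟩ := IsPGroup.iff_card.1 hD
    have hco : (Nat.card D).Coprime s := by
      rw [hN]
      refine Nat.Coprime.pow_left N ?_
      rw [Nat.Prime.coprime_iff_not_dvd hp]
      intro hd
      have h3 := (Nat.modEq_zero_iff_dvd.2 hd).symm.trans hs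
      have h4 := (Nat.modEq_iff_dvd' (Nat.zero_le 1)).1 h3
      exact hp.one_lt.ne' (Nat.dvd_one.1 (by simpa using h4))
    have h1 := hcoef (l ^ s)
    have h2 : ∑ u, f u * lv (l ^ s) u⁻¹ = ∑ u, f u * lv l u⁻¹ := by
      rw [← Equiv.sum_comp (powCoprime hco) (fun u => f u * lv l u⁻¹)]
      refine Finset.sum_congr rfl fun u _ => ?_
      rw [powCoprime_apply, hinv s hs u, KCS_hpow, ← inv_pow, lv_pow]
    rw [h2, hcoef l] at h1
    exact_mod_cast (mul_left_cancel₀ hc0 h1).symm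
  -- the characters trivial on K
  have hKs : ∀ l : D →* ℂˣ, ∑ k : K, lv l k = if (∀ k ∈ K, lv l k = 1) then (Nat.card K : ℂ) else 0 := by
    intro l
    have h1 := sum_lv (l.comp K.subtype)
    have h2 : ∀ k : K, lv (l.comp K.subtype) k = lv l k := fun _ => rfl
    rw [Finset.sum_congr rfl fun k _ => h2 k] at h1
    rw [h1]
    have h3 : l.comp K.subtype = 1 ↔ ∀ k ∈ K, lv l k = 1 := by
      constructor
      · intro h k hk
        have := congrArg (fun l' => lv l' (⟨k, hk⟩ : K)) h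
        simpa [h2] using this
      · intro h
        exact lv_inj fun k => by rw [h2, h k k.2, lv_hone]
    simp only [h3]
  set S : Finset (D →* ℂˣ) := Finset.univ.filter fun l => ¬ ∀ k ∈ K, lv l k = 1 with hS
  have hcard : ∀ l : D →* ℂˣ, ∃ i, orderOf l = p ^ i := by
    intro l
    have := Fact.mk hp
    obtain ⟨N, hN⟩ := IsPGroup.iff_card.1 hD
    have h1 : orderOf l ∣ p ^ N := by
      refine orderOf_dvd_of_pow_eq_one (lv_inj fun u => ?_)
      refine (map_pow (KCS_v u) l (p ^ N)).trans ?_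
      rw [← hN, KCS_v_apply, lv_pow_card, lv_hone]
    obtain ⟨i, -, hi⟩ := (Nat.dvd_prime_pow hp).1 h1
    exact ⟨i, hi⟩
  obtain ⟨z, hz1, hz2⟩ := KCS_abs (X := D →* ℂˣ) p hp j hcard S (fun l hl h => by
      rw [hS, Finset.mem_filter] at hl
      apply hl.2
      intro k hk
      obtain ⟨v, rfl⟩ := hK k hk
      have h1 := congrArg (KCS_v v) h
      rw [map_pow, map_one, KCS_v_apply] at h1
      rw [lv_pow, h1])
    (fun l hl s hs => by
      rw [hS, Finset.mem_filter] at hl ⊢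
      refine ⟨Finset.mem_univ _, fun h => hl.2 fun k hk => ?_⟩
      obtain ⟨t, ht⟩ := exists_pow_eq_self_of_coprime hs
      have h3 : lv l k ^ s = 1 := (map_pow (KCS_v k) l s).symm.trans (h k hk)
      have h6 := congrArg (KCS_v k) ht
      rw [map_pow, map_pow, KCS_v_apply, h3, one_pow] at h6
      exact h6.symm)
    m (fun l s hs => hmc s l hs) (KCS_v u) (fun l => lv_int l u)
  refine ⟨∑ l : D →* ℂˣ with (∀ k ∈ K, lv l k = 1), (m l : ℂ) * lv l u, z,
    IsIntegral.sum _ fun l _ => (isIntegral_algebraMap (R := ℤ) (x := m l)).mul (lv_int l u), hz1, ?_, ?_⟩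
  · rw [finsum_eq_sum_of_fintype]
    have h1 : ∀ k : K, f (u * k) = ∑ l : D →* ℂˣ, (m l : ℂ) * lv l u * lv l k := fun k => by
      rw [hf']
      exact Finset.sum_congr rfl fun l _ => by rw [lv_mul]; ring
    rw [Finset.sum_congr rfl fun k _ => h1 k, Finset.sum_comm, Finset.mul_sum, Finset.sum_filter]
    refine Finset.sum_congr rfl fun l _ => ?_
    rw [← Finset.mul_sum, hKs l]
    split_ifs <;> ring
  · rw [← hz2, hf' u, ← Finset.sum_filter_add_sum_filter_not Finset.univ (fun l : D →* ℂˣ => ∀ k ∈ K, lv l k = 1)]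
    rfl

end Pool.Agent.LE
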